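import Mathlib

/-!
# Products of strong d-spaces

There are two strong d-spaces whose product is not a strong d-space.

The first factor is the poset with two minimal elements and countably many maximal elements, each of
which lies above both minimal elements, with the topology of all upper sets.  The second factor is the
chain `0 < 1 < 2 < ... < ⊤` with its Scott topology.
-/

set_option autoImplicit false

namespace Pool.Agent.Results.MP_e2e219_gt.ProductFails

open Set

/-- The specialization order: `x ≤ y` iff `x` lies in the closure of `{y}`. -/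
def SpecLE {X : Type*} [TopologicalSpace X] (x y : X) : Prop := x ∈ closure ({y} : Set X)

/-- The set `↑x` of all `y` with `x ≤ y` in the specialization order. -/
def up {X : Type*} [TopologicalSpace X] (x : X) : Set X := {y | SpecLE x y}

/-- `D` is directed: it is nonempty and any two elements of `D` have an upper bound in `D` with
respect to the specialization order. -/
def IsDir {X : Type*} [TopologicalSpace X] (D : Set X) : Prop :=
  D.Nonempty ∧ ∀ a ∈ D, ∀ b ∈ D, ∃ c ∈ D, SpecLE a c ∧ SpecLE b c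

/-- A strong d-space: a `T_0` space such that for every directed `D`, every point `x` and every open
`U`, if the intersection of all `↑d`, `d ∈ D`, and of `↑x` lies in `U`, then `↑d ∩ ↑x ⊆ U` for some
`d ∈ D`. -/
def StrongDSpace (X : Type*) [TopologicalSpace X] : Prop :=
  T0Space X ∧ ∀ D : Set X, IsDir D → ∀ (x : X) (U : Set X), IsOpen U →
    (⋂ d ∈ D, up d) ∩ up x ⊆ U → ∃ d ∈ D, up d ∩ up x ⊆ U

lemma specLE_iff {X : Type*} [TopologicalSpace X] {x y : X} :
    SpecLE x y ↔ ∀ U : Set X, IsOpen U → x ∈ U → y ∈ U := by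
  unfold SpecLE
  rw [mem_closure_iff]
  constructor
  · intro h U hU hx
    obtain ⟨z, hz, hz2⟩ := h U hU hx
    rw [mem_singleton_iff] at hz2
    rwa [← hz2]
  · intro h U hU hx
    exact ⟨y, h U hU hx, rfl⟩

lemma strong_of_max {X : Type*} [TopologicalSpace X] {D : Set X} {m : X} (hm : m ∈ D)
    (h : ∀ a ∈ D, SpecLE a m) {x : X} {U : Set X} (hU : (⋂ d ∈ D, up d) ∩ up x ⊆ U) :
    ∃ d ∈ D, up d ∩ up x ⊆ U := by
  refine ⟨m, hm, fun z hz => hU ⟨?_, hz.2⟩⟩
  simp only [mem_iInter]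
  intro a ha
  have h1 := h a ha
  have h2 : SpecLE m z := hz.1
  show SpecLE a z
  rw [specLE_iff] at h1 h2 ⊢
  exact fun V hV haV => h2 V hV (h1 V hV haV)

/-! ### The first factor -/

/-- The poset with two minimal elements `lo b` and the maximal elements `hi n`, all of them above
both minimal elements. -/
inductive A : Type
  | lo (b : Bool)
  | hi (n : ℕ)

open A

/-- The topology of all upper sets. -/
instance topA : TopologicalSpace A where
  IsOpen U := ∀ b : Bool, lo b ∈ U → ∀ n : ℕ, hi n ∈ U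
  isOpen_univ := fun _ _ _ => trivial
  isOpen_inter := fun _ _ hs ht b hb n => ⟨hs b hb.1 n, ht b hb.2 n⟩
  isOpen_sUnion := fun _ hS b hb n => by
    obtain ⟨s, hs, hbs⟩ := hb
    exact ⟨s, hs, hS s hs b hbs n⟩

lemma open_A {U : Set A} : IsOpen U ↔ ∀ b : Bool, lo b ∈ U → ∀ n : ℕ, hi n ∈ U :=
  Iff.rfl

lemma lo_ne_hi (b : Bool) (n : ℕ) : lo b ≠ hi n := by simp

lemma open_hi (n : ℕ) : IsOpen ({hi n} : Set A) := by
  rw [open_A]
  intro b hb
  exact absurd (mem_singleton_iff.1 hb) (lo_ne_hi b n)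

lemma open_lo (b : Bool) : IsOpen ({x : A | x = lo b ∨ ∃ n, x = hi n} : Set A) := by
  rw [open_A]
  intro c _ n
  exact Or.inr ⟨n, rfl⟩

lemma cases_A (x : A) : (∃ b, x = lo b) ∨ ∃ n, x = hi n := by
  rcases x with b | n
  · exact Or.inl ⟨b, rfl⟩
  · exact Or.inr ⟨n, rfl⟩

lemma lo_inj {b c : Bool} (h : lo b = lo c) : b = c := by injection h

lemma hi_inj {m n : ℕ} (h : hi m = hi n) : m = n := by injection h

lemma hi_le {n : ℕ} {x : A} (h : SpecLE (hi n) x) : x = hi n := by
  rw [specLE_iff] at h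
  exact h _ (open_hi n) rfl

lemma lo_le_lo {b c : Bool} (h : SpecLE (lo b) (lo c)) : b = c := by
  rw [specLE_iff] at h
  rcases h _ (open_lo b) (Or.inl rfl) with h1 | ⟨n, h1⟩
  · exact (lo_inj h1).symm
  · exact absurd h1 (lo_ne_hi _ _)

lemma lo_le_hi (b : Bool) (n : ℕ) : SpecLE (lo b) (hi n) := by
  rw [specLE_iff]
  intro U hU hb
  exact (open_A.1 hU) b hb n

theorem strong_A : StrongDSpace A := by
  refine ⟨⟨fun x y hxy => ?_⟩, fun D hD x U _ h => ?_⟩
  · have h1 : SpecLE x y := by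
      rw [specLE_iff]; exact fun U hU hx => (hxy.mem_open_iff hU).1 hx
    have h2 : SpecLE y x := by
      rw [specLE_iff]; exact fun U hU hx => (hxy.mem_open_iff hU).2 hx
    rcases cases_A x with ⟨b, rfl⟩ | ⟨n, rfl⟩
    · rcases cases_A y with ⟨c, rfl⟩ | ⟨m, rfl⟩
      · rw [lo_le_lo h1]
      · exact hi_le h2
    · exact (hi_le h1).symm
  · by_cases hn : ∃ n, hi n ∈ D
    · obtain ⟨n, hn⟩ := hn
      refine strong_of_max hn (fun a ha => ?_) h
      obtain ⟨c, -, hac, hnc⟩ := hD.2 a ha _ hn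
      rwa [hi_le hnc] at hac
    · obtain ⟨m, hm⟩ := hD.1
      refine strong_of_max hm (fun a ha => ?_) h
      obtain ⟨c, hc, hac, hmc⟩ := hD.2 a ha m hm
      rcases cases_A c with ⟨b, rfl⟩ | ⟨n, rfl⟩
      · rcases cases_A m with ⟨b', rfl⟩ | ⟨n, rfl⟩
        · rwa [lo_le_lo hmc]
        · exact absurd ⟨n, hm⟩ hn
      · exact absurd ⟨n, hc⟩ hn

/-! ### The second factor -/

/-- The chain `0 < 1 < 2 < ... < ⊤`. -/
def B : Type := WithTop ℕ

/-- The Scott topology: the open sets are the upper sets `U` such that `⊤ ∈ U` only if `U` contains a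
natural number. -/
instance topB : TopologicalSpace B where
  IsOpen U := (∀ x y : WithTop ℕ, x ≤ y → x ∈ U → y ∈ U) ∧
    ((⊤ : WithTop ℕ) ∈ U → ∃ n : ℕ, ((n : ℕ) : WithTop ℕ) ∈ U)
  isOpen_univ := ⟨fun _ _ _ _ => trivial, fun _ => ⟨0, trivial⟩⟩
  isOpen_inter := fun s t hs ht => ⟨fun x y hxy hx => ⟨hs.1 x y hxy hx.1, ht.1 x y hxy hx.2⟩,
    fun h => by
      obtain ⟨m, hm⟩ := hs.2 h.1
      obtain ⟨n, hn⟩ := ht.2 h.2
      exact ⟨max m n, hs.1 _ _ (by exact_mod_cast le_max_left m n) hm,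
        ht.1 _ _ (by exact_mod_cast le_max_right m n) hn⟩⟩
  isOpen_sUnion := fun S hS => ⟨fun x y hxy hx => by
      obtain ⟨s, hs, hxs⟩ := hx
      exact ⟨s, hs, (hS s hs).1 x y hxy hxs⟩,
    fun h => by
      obtain ⟨s, hs, hts⟩ := h
      obtain ⟨n, hn⟩ := (hS s hs).2 hts
      exact ⟨n, s, hs, hn⟩⟩

/-- the elements of the chain -/
def el (x : WithTop ℕ) : B := x

lemma open_Ici (n : ℕ) : IsOpen ({x : B | ∃ y : WithTop ℕ, x = el y ∧ (n : WithTop ℕ) ≤ y}) := by
  refine ⟨?_, ?_⟩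
  · rintro x y hxy ⟨z, rfl, hz⟩
    exact ⟨y, rfl, le_trans hz hxy⟩
  · intro _
    exact ⟨n, n, rfl, le_rfl⟩

lemma open_Ioi (b : WithTop ℕ) : IsOpen ({x : B | ∃ y : WithTop ℕ, x = el y ∧ b < y}) := by
  refine ⟨?_, ?_⟩
  · rintro x y hxy ⟨z, rfl, hz⟩
    exact ⟨y, rfl, lt_of_lt_of_le hz hxy⟩
  · rintro ⟨z, hz, hz2⟩
    have hb : b ≠ ⊤ := ne_top_of_lt hz2
    obtain ⟨k, rfl⟩ := WithTop.ne_top_iff_exists.1 hb
    exact ⟨k + 1, ((k + 1 : ℕ) : WithTop ℕ), rfl, by
      show ((k : ℕ) : WithTop ℕ) < ((k + 1 : ℕ) : WithTop ℕ)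
      exact_mod_cast Nat.lt_succ_self k⟩

lemma el_le {x y : WithTop ℕ} : SpecLE (el x) (el y) ↔ x ≤ y := by
  rw [specLE_iff]
  constructor
  · intro h
    by_contra hxy
    rw [not_le] at hxy
    obtain ⟨z, hz, hz2⟩ := h _ (open_Ioi y) ⟨x, rfl, hxy⟩
    have : y = z := hz
    rw [← this] at hz2
    exact lt_irrefl _ hz2
  · intro h U hU hx
    exact hU.1 x y h hx

theorem strong_B : StrongDSpace B := by
  refine ⟨⟨fun x y hxy => ?_⟩, fun D hD x U hU h => ?_⟩
  · have h1 : SpecLE (el x) (el y) := by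
      rw [specLE_iff]; exact fun U hU hx => (hxy.mem_open_iff hU).1 hx
    have h2 : SpecLE (el y) (el x) := by
      rw [specLE_iff]; exact fun U hU hx => (hxy.mem_open_iff hU).2 hx
    exact le_antisymm (α := WithTop ℕ) (el_le.1 h1) (el_le.1 h2)
  · have htop : el ⊤ ∈ U := by
      apply h
      refine ⟨?_, ?_⟩
      · simp only [mem_iInter]
        intro d _
        exact el_le.2 (le_top (α := WithTop ℕ) (a := d))
      · exact el_le.2 (le_top (α := WithTop ℕ) (a := x))
    obtain ⟨n, hn⟩ := hU.2 htop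
    by_cases hd : ∃ d : WithTop ℕ, el d ∈ D ∧ (n : WithTop ℕ) ≤ d
    · obtain ⟨d, hdD, hnd⟩ := hd
      refine ⟨d, hdD, fun z hz => ?_⟩
      have h1 : SpecLE (el d) (el z) := hz.1
      exact hU.1 n z (le_trans hnd (el_le.1 h1)) hn
    · push Not at hd
      have hfin : (D : Set (WithTop ℕ)).Finite := by
        refine Set.Finite.subset ((Set.finite_Iio n).image (fun k : ℕ => (k : WithTop ℕ))) ?_
        intro d hd'
        have h1 : (d : WithTop ℕ) < (n : WithTop ℕ) := hd d hd'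
        obtain ⟨k, rfl⟩ := WithTop.ne_top_iff_exists.1 (ne_top_of_lt h1)
        exact ⟨k, mem_Iio.2 (WithTop.coe_lt_coe.1 h1), rfl⟩
      obtain ⟨m, hm, hmax⟩ := Set.exists_max_image (D : Set (WithTop ℕ))
        (fun x : WithTop ℕ => x) hfin hD.1
      exact strong_of_max (D := D) (m := m) hm (fun a ha => el_le.2 (hmax a ha)) h

/-! ### The product -/

/-- The two factors, as a family with two members. -/
def F : Bool → Type
  | true => A
  | false => B

/-- The topologies of the two factors. -/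
instance topF : ∀ i, TopologicalSpace (F i)
  | true => topA
  | false => topB

/-- the points of the product -/
def pt (a : A) (b : B) : ∀ i, F i
  | true => a
  | false => b

lemma specLE_pi {f g : ∀ i, F i} : SpecLE f g ↔ ∀ i, SpecLE (f i) (g i) := by
  unfold SpecLE
  simp only [← specializes_iff_mem_closure]
  exact specializes_pi

lemma specLE_pt {a a' : A} {b b' : B} (h1 : SpecLE a a') (h2 : SpecLE b b') :
    SpecLE (pt a b) (pt a' b') := by
  rw [specLE_pi]
  rintro (_ | _)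
  · exact h2
  · exact h1

theorem not_strong : ¬ StrongDSpace (∀ i, F i) := by
  intro hs
  obtain ⟨-, hs⟩ := hs
  have h := hs {f | ∃ k : ℕ, f = pt (lo true) (el k)} ?_ (pt (lo false) (el (0 : ℕ)))
    {f | ∃ k : ℕ, f true = hi k ∧ ∃ y : WithTop ℕ, f false = el y ∧ (k : WithTop ℕ) ≤ y} ?_ ?_
  · obtain ⟨_, ⟨k, rfl⟩, hk⟩ := h
    obtain ⟨l, hl1, y, hl2, hl3⟩ := hk (show pt (hi (k + 1)) (el k) ∈ _ from
      ⟨specLE_pt (lo_le_hi _ _) (el_le.2 le_rfl),
        specLE_pt (lo_le_hi _ _) (el_le.2 (by exact_mod_cast Nat.zero_le k))⟩)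
    have h1 : k + 1 = l := hi_inj hl1
    have h2 : ((k : ℕ) : WithTop ℕ) = y := hl2
    rw [← h2, ← h1] at hl3
    have h3 : k + 1 ≤ k := by exact_mod_cast hl3
    omega
  · refine ⟨⟨_, 0, rfl⟩, ?_⟩
    rintro _ ⟨k, rfl⟩ _ ⟨l, rfl⟩
    refine ⟨pt (lo true) (el ((max k l : ℕ) : WithTop ℕ)), ⟨max k l, rfl⟩, ?_, ?_⟩
    · exact specLE_pt (specLE_iff.2 fun _ _ h => h)
        (el_le.2 (by exact_mod_cast le_max_left k l))
    · exact specLE_pt (specLE_iff.2 fun _ _ h => h)
        (el_le.2 (by exact_mod_cast le_max_right k l))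
  · have : {f : ∀ i, F i | ∃ k : ℕ, f true = hi k ∧
        ∃ y : WithTop ℕ, f false = el y ∧ (k : WithTop ℕ) ≤ y} =
        ⋃ k : ℕ, ((fun f : ∀ i, F i => f true) ⁻¹' ({hi k} : Set A)) ∩
          ((fun f : ∀ i, F i => f false) ⁻¹' ({x : B | ∃ y : WithTop ℕ, x = el y ∧
            (k : WithTop ℕ) ≤ y} : Set B)) := by
      ext f
      simp only [mem_iUnion]
      rfl
    rw [this]
    refine isOpen_iUnion fun k => IsOpen.inter ?_ ?_
    · exact (open_hi k).preimage (continuous_apply (A := F) true)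
    · exact (open_Ici k).preimage (continuous_apply (A := F) false)
  · rintro f ⟨h1, h2⟩
    simp only [mem_iInter] at h1
    have hk : ∀ k : ℕ, SpecLE (pt (lo true) (el k)) f := fun k => h1 _ ⟨k, rfl⟩
    have h2' : SpecLE (pt (lo false) (el (0 : ℕ))) f := h2
    have ha1 : SpecLE (lo true) (f true) := specLE_pi.1 (hk 0) true
    have ha2 : SpecLE (lo false) (f true) := specLE_pi.1 h2' true
    rcases cases_A (f true) with ⟨b, hb⟩ | ⟨n, hn⟩
    · rw [hb] at ha1 ha2
      have e1 := lo_le_lo ha1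
      have e2 := lo_le_lo ha2
      rw [← e1] at e2
      exact absurd e2 (by decide)
    · refine ⟨n, hn, f false, rfl, ?_⟩
      have h3 : SpecLE (el n) (f false) := specLE_pi.1 (hk n) false
      exact el_le.1 h3

/-- **Two strong d-spaces whose product is not a strong d-space.** -/
theorem result : ∃ (X : Bool → Type) (_ : ∀ i, TopologicalSpace (X i)),
    (∀ i, StrongDSpace (X i)) ∧ ¬ StrongDSpace (∀ i, X i) := by
  refine ⟨F, topF, ?_, not_strong⟩
  rintro (_ | _)
  · exact strong_B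
  · exact strong_A

end Pool.Agent.Results.MP_e2e219_gt.ProductFails
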